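import Mathlib
import Pool.Agent.Q51.Sch.Str

/-!
# Lower bounds for the transcendence degree of logarithms of algebraic numbers

Let `f : ℕ → ℝ`. Consider the statement `Bound f`: for all logarithms `l₁, …, l_n` of algebraic numbers which are
linearly independent over `ℚ`, `trdeg ℚ (l₁, …, l_n) ≥ f (n)`. The conjecture on the algebraic independence of
logarithms is `Bound n`; weaker statements such as `Bound (n - b)` or `Bound (c n - b)`, `c > 0`, are open, too.

* Real form. If `f` is convex, then `Bound f` holds if it holds for the spaces spanned by real logarithms and by purely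
  imaginary logarithms, that is for the real numbers `x₁, …, x_r, y₁, …, y_s`, where `x_i` are logarithms of positive
  real algebraic numbers, linearly independent over `ℚ`, and `y_j` are arguments of algebraic numbers of absolute
  value one, linearly independent over `ℚ`. If `f (n + 1) ≥ f (n) + 1`, one may assume that the space
  contains any given finite set of logarithms.
* The exceptional space. Let `c ≥ 0` be rational. The bound `c n` holds up to a bounded error for all spaces of
  logarithms if and only if it holds, without error, for all spaces which meet a fixed space `E` of finite dimension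
  in `0`; moreover `E` can be chosen stable under complex conjugation, so that it is spanned by real and by purely
  imaginary logarithms. For `c = 1`: if the defect `n - trdeg` is bounded, then all logarithms which are linearly
  independent modulo `E` are algebraically independent.

Proof. For a rational space `W` of logarithms of finite dimension let `t (W)` be the transcendence degree of `ℚ (W)`.
It is submodular. For the first part apply this to a space and its complex conjugate and use
`2 f (dim W) ≤ f (dim (W + W̄)) + f (dim (W ∩ W̄))`. For the second part let `δ (W) = t (W) - c dim W`. If it is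
bounded from below, it takes a least value, the spaces where it is attained are closed under sum and intersection,
and so there is a smallest one, `E`, which is stable under conjugation. From
`δ (W + E) + δ (W ∩ E) ≤ δ (W) + δ (E) ≤ δ (W) + δ (W + E)` we get `δ (W) ≥ δ (W ∩ E)`.
-/

set_option autoImplicit false

namespace Pool.Agent.Results.MP_60829e_nt.LowerBounds

open Set

/-- the transcendence degree over `ℚ` of the field generated by `X` (used for finite sets `X` only) -/
noncomputable def trd {K : Type} [Field K] [Algebra ℚ K] (X : Set K) : ℕ :=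
  Cardinal.toNat (Algebra.trdeg ℚ (IntermediateField.adjoin ℚ X))

/-- `n` linearly independent logarithms of algebraic numbers have transcendence degree at least `f n` -/
def Bound (f : ℕ → ℝ) : Prop :=
  ∀ (n : ℕ) (l : Fin n → ℂ), (∀ i, IsAlgebraic ℚ (Complex.exp (l i))) → LinearIndependent ℚ l →
    f n ≤ trd (range l)

/-- the same for `r` real logarithms `x` of algebraic numbers and `s` arguments `y` of algebraic numbers, such that
the rational space spanned by the `x_i` and the `√-1 y_j` contains `L` -/
def RealBound (L : Finset ℂ) (f : ℕ → ℝ) : Prop :=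
  ∀ (r s : ℕ) (x : Fin r → ℝ) (y : Fin s → ℝ), (∀ i, IsAlgebraic ℚ (Real.exp (x i))) →
    (∀ j, IsAlgebraic ℚ (Real.cos (y j))) → LinearIndependent ℚ x → LinearIndependent ℚ y →
    (∀ z ∈ L, z ∈ Submodule.span ℚ
      (range (fun i => (x i : ℂ)) ∪ range (fun j => Complex.I * (y j : ℂ)))) →
    f (r + s) ≤ trd (range x ∪ range y)

/-- the bound `c n` for spaces of logarithms which meet `E` in zero -/
def BoundOutside (E : Submodule ℚ ℂ) (c : ℚ) : Prop :=
  ∀ (n : ℕ) (l : Fin n → ℂ), (∀ i, IsAlgebraic ℚ (Complex.exp (l i))) → LinearIndependent ℚ l →
    Disjoint (Submodule.span ℚ (range l)) E → c * n ≤ trd (range l)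

/-- **Main result.** (0) The conjecture is `Bound n`. (1) For every convex `f` and every finite set `L` of logarithms,
`Bound f` is equivalent to its real form; here `L` is empty or `f (n + 1) ≥ f (n) + 1` for all `n`. (2) For rational
`c ≥ 0` the bound `c n` holds with a bounded error if and only if it holds without error outside of a space
`E` of logarithms of finite dimension, which is stable under complex conjugation. -/
theorem result :
    ((∀ (n : ℕ) (l : Fin n → ℂ), (∀ i, IsAlgebraic ℚ (Complex.exp (l i))) → LinearIndependent ℚ l →
      AlgebraicIndependent (integralClosure ℚ ℂ) l) ↔ Bound (fun n => n)) ∧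
    (∀ (L : Finset ℂ) (f : ℕ → ℝ), (∀ z ∈ L, IsAlgebraic ℚ (Complex.exp z)) →
      (∀ a b m, a + b = 2 * m → 2 * f m ≤ f a + f b) → (L = ∅ ∨ ∀ n, f n + 1 ≤ f (n + 1)) →
      (Bound f ↔ RealBound L f)) ∧
    (∀ c : ℚ, 0 ≤ c → ((∃ b : ℝ, Bound (fun n => c * n - b)) ↔
      ∃ E : Submodule ℚ ℂ, FiniteDimensional ℚ E ∧
        (∀ z ∈ E, IsAlgebraic ℚ (Complex.exp z) ∧ (starRingEnd ℂ) z ∈ E) ∧ BoundOutside E c)) := by
  refine ⟨?_, ?_, ?_⟩
  · have key : ∀ (n : ℕ) (l : Fin n → ℂ), LinearIndependent ℚ l →
        (AlgebraicIndependent (integralClosure ℚ ℂ) l ↔ ((n : ℕ) : ℝ) ≤ trd (range l)) := by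
      intro n l hl
      have h1 : AlgebraicIndependent (integralClosure ℚ ℂ) l ↔ AlgebraicIndependent ℚ l :=
        ⟨fun h => h.restrictScalars (algebraMap ℚ (integralClosure ℚ ℂ)).injective,
          fun h => h.extendScalars_of_isIntegral _⟩
      have f1 : FiniteDimensional ℚ (Submodule.span ℚ (range l)) :=
        FiniteDimensional.span_of_finite ℚ (finite_range l)
      have h2 : trd (range l) = Pool.Agent.Q51.Sch.tt (Submodule.span ℚ (range l)) :=
        Pool.Agent.Q51.Sch.trd_range l
      rw [h1, Pool.Agent.Q51.Sch.algInd_iff (n := n) (by simp) hl.injective, h2,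
        ← Pool.Agent.Q51.Sch.rk_span, ← Pool.Agent.Q51.Sch.coe_tt]
      norm_cast
    constructor
    · intro h n l h1 h2
      exact (key n l h2).1 (h n l h1 h2)
    · intro h n l h1 h2
      exact (key n l h2).2 (h n l h1 h2)
  · intro L f hL hf hfL
    exact Pool.Agent.Q51.Sch.partOne L hL f hf hfL
  · intro c hc
    have h := Pool.Agent.Q51.Sch.partTwo c hc
    refine Iff.trans ?_ h
    constructor
    · rintro ⟨b, hb⟩
      obtain ⟨q, hq⟩ := exists_rat_gt b
      refine ⟨q, fun n l h1 h2 => ?_⟩
      have h3 := hb n l h1 h2
      have h4 : ((c * n - q : ℚ) : ℝ) ≤ ((trd (range l) : ℕ) : ℝ) := by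
        push_cast
        linarith
      exact_mod_cast h4
    · rintro ⟨b, hb⟩
      refine ⟨b, fun n l h1 h2 => ?_⟩
      have h3 := hb n l h1 h2
      have h4 : ((c * n - b : ℚ) : ℝ) ≤ ((trd (range l) : ℕ) : ℝ) := by exact_mod_cast h3
      push_cast at h4
      exact h4

end Pool.Agent.Results.MP_60829e_nt.LowerBounds
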