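import Mathlib
import Pool.Agent.Y918.GB.Mat
import Pool.Agent.Q311.BC.A

/-!
# Logarithms and powers of random elements of groups of algebraic numbers

For every `j ≤ n` let `λ_{j,1}, …, λ_{j,k}` be logarithms of algebraic numbers which are linearly independent
over `ℚ` (for different `j` they may be the same), and let `β_{j,1}, …, β_{j,d}` be arbitrary complex numbers
such that `1, β_{j,1}, …, β_{j,d}` are linearly independent over `ℚ`. For a matrix `a = (a_{j,r})` with entries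
in an arbitrary finite set `A` of rational numbers, for instance `{0, 1}`, let `l_j = ∑_r a_{j,r} λ_{j,r}`, a
logarithm of an algebraic number `α_j`. For all but `C |A| ^ (n k - δ k)` of the `|A| ^ (n k)` matrices the
`n (d + 1)` numbers `l_j`, `exp (β_{j,i} l_j)` (that is `log α_j`, `α_j ^ β_{j,i}`) satisfy no nonzero polynomial
relation of degree at most `D` in each of them with coefficients in `W`, where `W` is any given space of
dimension at most `N` over the algebraic numbers. Here `k ≥ k₀`, and `k₀, C, δ > 0` depend on `d, n, D, N` only.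
More generally one may take `ζ_j + l_j` and `exp (ξ_{j,i} + β_{j,i} l_j)` with arbitrary complex `ζ_j`, `ξ_{j,i}`.

This first part is proved in the starting files (`Pool.Agent.Y918.GB.logs`), where it was not handed in.

The second part is new: there is `w(k) → ∞`, depending on `d` and `n` only, such that the following holds for
all such `β_{k,j,i}` and all logarithms `λ_{k,j,r}` (`j ≤ n`, `r < k`) of algebraic numbers which are linearly
independent over `ℚ` for every `k` and `j`. Let `A` be a finite set of at least two rational numbers, `W_k`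
spaces of dimension at most `w(k)` over the algebraic numbers, and let `a_{j,r}` (`j ≤ n`, `r = 0, 1, …`) be
independent random elements of `A`. Then with probability one, for all large `k`, the `n (d + 1)` numbers
`ζ_{k,j} + l_j` and `exp (ξ_{k,j,i} + β_{k,j,i} l_j)`, `l_j = ∑_{r<k} a_{j,r} λ_{k,j,r}`, satisfy no nonzero polynomial
relation of degree at most `w(k)` in each of them with coefficients in `W_k`.
-/

set_option autoImplicit false

open Filter MeasureTheory

namespace Pool.Agent.Results.MP_60829e_nt.RandomLogsAndPowers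

/-- The numbers `w_i` satisfy a nonzero polynomial relation with coefficients in `W`, of degree at
most `D` in each of them. -/
def Related (W : Submodule (algebraicClosure ℚ ℂ) ℂ) (D : ℕ) {ι : Type} (w : ι → ℂ) : Prop :=
  ∃ p : MvPolynomial ι ℂ, p ≠ 0 ∧ (∀ M, p.coeff M ∈ W) ∧ (∀ i, p.degreeOf i ≤ D) ∧
    MvPolynomial.eval w p = 0

/-- The logarithms `l_j = ∑_r a_{j,r} λ_{j,r}`. -/
noncomputable def comb {n k : ℕ} (lam : Fin n → Fin k → ℂ) (a : Fin n → Fin k → ℚ)
    (j : Fin n) : ℂ := ∑ r : Fin k, (a j r : ℂ) * lam j r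

/-- The numbers `ζ_j + l_j` and `exp (ξ_{j,i} + β_{j,i} l_j)`. -/
noncomputable def values {n d : ℕ} (β ξ : Fin n → Fin d → ℂ) (ζ l : Fin n → ℂ)
    (s : Fin n × Option (Fin d)) : ℂ :=
  match s with
  | (j, none) => ζ j + l j
  | (j, some i) => Complex.exp (ξ j i + β j i * l j)

open Classical in
theorem part1 (d n D N : ℕ) : ∃ (k₀ C : ℕ) (δ : ℝ), 0 < δ ∧ ∀ k ≥ k₀,
    ∀ (β : Fin n → Fin d → ℂ) (lam : Fin n → Fin k → ℂ),
    (∀ j, LinearIndependent ℚ (Fin.cons 1 (β j) : Fin (d + 1) → ℂ)) →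
    (∀ j, LinearIndependent ℚ (lam j)) → (∀ j r, IsAlgebraic ℚ (Complex.exp (lam j r))) →
    ∀ A : Finset ℚ, A.Nonempty →
    ∀ W : Submodule (algebraicClosure ℚ ℂ) ℂ, Module.Finite (algebraicClosure ℚ ℂ) W →
    Module.finrank (algebraicClosure ℚ ℂ) W ≤ N → ∀ (ζ : Fin n → ℂ) (ξ : Fin n → Fin d → ℂ),
    (((Fintype.piFinset fun _ : Fin n => Fintype.piFinset fun _ : Fin k => A).filter
      (fun a : Fin n → Fin k → ℚ => Related W D (values β ξ ζ (comb lam a)))).card : ℝ) ≤
      C * (A.card : ℝ) ^ ((n * k : ℝ) - δ * k) := by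
  obtain ⟨k₀, C, δ, hδ, h⟩ := Pool.Agent.Y918.GB.logs d n D N
  refine ⟨k₀, C, δ, hδ, fun k hk β lam hβ hlam halg A hA W hW hWN ζ ξ => ?_⟩
  refine le_trans (Nat.cast_le.2 (Finset.card_le_card ?_))
    (h k hk β lam hβ hlam halg A hA W hW hWN ζ ξ)
  intro a ha
  rw [Finset.mem_filter] at ha ⊢
  refine ⟨ha.1, ?_⟩
  have h1 := ha.2
  have e1 : values β ξ ζ (comb lam a) = fun p : Fin n × Option (Fin d) =>
        p.2.elim (ζ p.1 + ∑ r, (a p.1 r : ℂ) * lam p.1 r)
        (fun l => Complex.exp (ξ p.1 l + β p.1 l * ∑ r, (a p.1 r : ℂ) * lam p.1 r)) := by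
    funext p
    obtain ⟨j, _ | i⟩ := p <;> rfl
  rw [e1] at h1
  exact h1

open Classical in
theorem result (d n : ℕ) :
    (∀ D N : ℕ, ∃ (k₀ C : ℕ) (δ : ℝ), 0 < δ ∧ ∀ k ≥ k₀,
      ∀ (β : Fin n → Fin d → ℂ) (lam : Fin n → Fin k → ℂ),
      (∀ j, LinearIndependent ℚ (Fin.cons 1 (β j) : Fin (d + 1) → ℂ)) →
      (∀ j, LinearIndependent ℚ (lam j)) → (∀ j r, IsAlgebraic ℚ (Complex.exp (lam j r))) →
      ∀ A : Finset ℚ, A.Nonempty →
      ∀ W : Submodule (algebraicClosure ℚ ℂ) ℂ, Module.Finite (algebraicClosure ℚ ℂ) W →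
      Module.finrank (algebraicClosure ℚ ℂ) W ≤ N → ∀ (ζ : Fin n → ℂ) (ξ : Fin n → Fin d → ℂ),
      (((Fintype.piFinset fun _ : Fin n => Fintype.piFinset fun _ : Fin k => A).filter
        (fun a : Fin n → Fin k → ℚ => Related W D (values β ξ ζ (comb lam a)))).card : ℝ) ≤
        C * (A.card : ℝ) ^ ((n * k : ℝ) - δ * k)) ∧
    (∃ w : ℕ → ℕ, Tendsto w atTop atTop ∧
      ∀ (β : ℕ → Fin n → Fin d → ℂ) (lam : (k : ℕ) → Fin n → Fin k → ℂ),
      (∀ k j, LinearIndependent ℚ (Fin.cons 1 (β k j) : Fin (d + 1) → ℂ)) →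
      (∀ k j, LinearIndependent ℚ (lam k j)) →
      (∀ k j r, IsAlgebraic ℚ (Complex.exp (lam k j r))) → ∀ A : Finset ℚ, 2 ≤ A.card →
      ∀ W : ℕ → Submodule (algebraicClosure ℚ ℂ) ℂ,
      (∀ k, Module.Finite (algebraicClosure ℚ ℂ) (W k)) →
      (∀ k, Module.finrank (algebraicClosure ℚ ℂ) (W k) ≤ w k) →
      ∀ (ζ : ℕ → Fin n → ℂ) (ξ : ℕ → Fin n → Fin d → ℂ),
      ∀ (Ω : Type) [MeasurableSpace Ω] (μ : Measure Ω) (a : Ω → Fin n → ℕ → ℚ),
      Q311.BC.Uniform μ A a → ∀ᵐ ω ∂μ, ∀ᶠ k : ℕ in atTop,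
        ¬ Related (W k) (w k) (values (β k) (ξ k) (ζ k) (comb (lam k) (fun j r => a ω j r)))) := by
  refine ⟨fun D N => part1 d n D N, ?_⟩
  have h := fun m : ℕ => part1 d n m m
  choose k₀ C δ hδ h using h
  obtain ⟨w, hw, hk, hmain⟩ := Q311.BC.main n k₀ C δ hδ
  refine ⟨w, hw, fun β lam hβ hlam halg A hA W hWf hWd ζ ξ Ω _ μ a ha => ?_⟩
  refine hmain Ω μ A a hA ha
    (fun k M => Related (W k) (w k) (values (β k) (ξ k) (ζ k) (comb (lam k) M))) ?_
  filter_upwards [hk] with k hk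
  exact h (w k) k hk (β k) (lam k) (hβ k) (hlam k) (halg k) A (Finset.card_pos.1 (by omega))
    (W k) (hWf k) (hWd k) (ζ k) (ξ k)

end Pool.Agent.Results.MP_60829e_nt.RandomLogsAndPowers
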