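import Pool.Agent.Y787.CStrat
import Pool.Agent.H53.AS.Pts

/-!
# Tuples of logarithms of algebraic numbers on an arbitrary variety

If linearly independent logarithms of algebraic numbers are algebraically independent, all algebraic relations
between logarithms come from linear relations with rational coefficients: a tuple `y = (y_1, ..., y_m)` of
logarithms on a variety `V` which is defined over the field of algebraic numbers is contained in a rational
linear space which is contained in `V`.  For arbitrary `V ⊆ 𝔸^m`, with complex coefficients, consider the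
translates `y + R` contained in `V`, where `R` is a rational linear space and `y` is in `V`.

* Dimension.  Let `W` be a rational vector space of finite dimension `N` which consists of numbers `q + λ`, `q`
  rational and `λ` a logarithm of an algebraic number, and let `V_t`, `t ∈ 𝔸^τ`, be a family of varieties.
  For every `ρ ≤ m` the points `y ∈ W ^ m` which lie on `V_t` for some rational `t`, but on no translate of a
  rational linear space of dimension greater than `ρ` contained in `V_t`, lie in an algebraic subset of `W ^ m`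
  of dimension at most `ρ N + (m - ρ) (m - 1) + τ`.  For `ρ = τ = 0` this is `m (m - 1)`, a number
  independent of `W`, of the degree and of the field of definition of `V`.
* Counting.  Let `l_1, ..., l_N` be logarithms of algebraic numbers which are linearly independent over `ℚ`.
  At most `κ H ^ (ρ N + (m - ρ) (m - 1) + τ)` of the integer `m × N` matrices `A` with entries of absolute
  value at most `H` are such that the point `A l` is as in the first part.
* Growth.  Let `ρ` be the greatest dimension of a rational linear space `R` such that some translate `A l + R`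
  is contained in `V`, `A` an integer matrix.  Then the number of the integer matrices `A` with entries of
  absolute value at most `H` and `A l ∈ V` is between `κ⁻¹ H ^ (ρ N)` and `κ H ^ (ρ N + (m - ρ) (m - 1))`.

Thus the exponent of the growth of the number of the tuples of logarithms on `V` is determined by the rational
linear spaces in `V` up to the summand `(m - ρ) (m - 1)` which does not depend on `N`.

The theorem is the complex form, with rational instead of algebraic translates, of
`MP_c50dba_nt.PointsOnVarieties` and `MP_c82530_nt.LinearSpacesThroughPoints` of the same author.  The base of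
the proof is `Pool.Agent.Y787.AS` of the starting library (derivations of germs along ultrafilters and the
hyperplane case of the linear subgroup theorem), where it was handed in only for the determinantal varieties
(`MP_1f047c_nt`).
-/

set_option autoImplicit false

namespace Pool.Agent.Results.MP_60829e_nt.RationalTranslates

open MvPolynomial

/-- The rational vector space spanned by `1` and the logarithms of algebraic numbers: it consists of the numbers
`q + λ`, where `q` is rational and `λ` is a logarithm of an algebraic number. -/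
noncomputable def LogForms : Submodule ℚ ℂ :=
  Submodule.span ℚ ({1} ∪ {z : ℂ | IsAlgebraic ℚ (Complex.exp z)})

/-- The translate `y + R_ℂ` is contained in the set of the common zeros of the polynomials `F s`; here `R` is
a linear space of rational vectors, and `R_ℂ` is the space of all linear combinations of these vectors with
complex coefficients. -/
def ContainsTranslate {m r : ℕ} (F : Fin r → MvPolynomial (Fin m) ℂ) (y : Fin m → ℂ)
    (R : Submodule ℚ (Fin m → ℚ)) : Prop :=
  ∀ s, ∀ c ∈ Submodule.span ℂ {x : Fin m → ℂ | ∃ v ∈ R, x = fun i => ((v i : ℚ) : ℂ)},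
    eval (fun i => y i + c i) (F s) = 0

/-- `y` is on the variety `F (y, t) = 0` for some rational `t`, but no translate `y + R_ℂ` with a rational
linear space `R` of dimension greater than `ρ` is contained in the variety `F (., t) = 0`. -/
def OnFamily {m τ r : ℕ} (F : Fin r → MvPolynomial (Fin m ⊕ Fin τ) ℂ) (ρ : ℕ) (y : Fin m → ℂ) : Prop :=
  ∃ t : Fin τ → ℚ,
    (∀ s, eval (Sum.elim y fun a => ((t a : ℚ) : ℂ)) (F s) = 0) ∧
    ¬ ∃ R : Submodule ℚ (Fin m → ℚ),
      ρ < Module.finrank ℚ R ∧
      ∀ s, ∀ c ∈ Submodule.span ℂ {x : Fin m → ℂ | ∃ v ∈ R, x = fun i => ((v i : ℚ) : ℂ)},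
        eval (Sum.elim (fun i => y i + c i) fun a => ((t a : ℚ) : ℂ)) (F s) = 0

/-- The integer `m × N` matrices `A` with entries of absolute value at most `H` for which the point `A l`
has the property `Q`. -/
def Matrices {N : ℕ} (m : ℕ) (l : Fin N → ℂ) (H : ℕ)
    (Q : (Fin m → ℂ) → Prop) : Set (Fin m → Fin N → ℤ) :=
  {A | (∀ i j, |A i j| ≤ H) ∧ Q (fun i => ∑ j, (A i j : ℂ) * l j)}

/-- **Main result.** -/
theorem result (m : ℕ) :
    -- dimension
    (∀ (τ r ρ : ℕ), ρ ≤ m → ∀ (F : Fin r → MvPolynomial (Fin m ⊕ Fin τ) ℂ)
      (W : Submodule ℚ ℂ) [FiniteDimensional ℚ W], W ≤ LogForms →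
      ∀ φ : Fin (ρ * Module.finrank ℚ W + (m - ρ) * (m - 1) + τ + 1) → ((Fin m → W) →ₗ[ℚ] ℚ),
      ∃ P : MvPolynomial (Fin (ρ * Module.finrank ℚ W + (m - ρ) * (m - 1) + τ + 1)) ℚ, P ≠ 0 ∧
        ∀ y : Fin m → W, OnFamily F ρ (fun i => (y i : ℂ)) → eval (fun i => φ i y) P = 0) ∧
    ∀ (N : ℕ) (l : Fin N → ℂ), (∀ j, IsAlgebraic ℚ (Complex.exp (l j))) → LinearIndependent ℚ l →
      -- counting
      (∀ (τ r ρ : ℕ), ρ ≤ m → ∀ (F : Fin r → MvPolynomial (Fin m ⊕ Fin τ) ℂ),
        ∃ κ : ℕ, ∀ H : ℕ, 1 ≤ H →
          (Matrices m l H (OnFamily F ρ)).ncard ≤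
            κ * H ^ (ρ * N + (m - ρ) * (m - 1) + τ)) ∧
      -- growth
      ∀ (r : ℕ) (F : Fin r → MvPolynomial (Fin m) ℂ) (ρ : ℕ),
        (∀ (A : Fin m → Fin N → ℤ) (R : Submodule ℚ (Fin m → ℚ)),
          ContainsTranslate F (fun i => ∑ j, (A i j : ℂ) * l j) R → Module.finrank ℚ R ≤ ρ) →
        (∃ (A : Fin m → Fin N → ℤ) (R : Submodule ℚ (Fin m → ℚ)),
          ContainsTranslate F (fun i => ∑ j, (A i j : ℂ) * l j) R ∧ Module.finrank ℚ R = ρ) →
        ∃ κ : ℕ, 1 ≤ κ ∧ ∀ H : ℕ, κ ≤ H →
          H ^ (ρ * N) ≤ κ * (Matrices m l H fun y => ∀ s, eval y (F s) = 0).ncard ∧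
          (Matrices m l H fun y => ∀ s, eval y (F s) = 0).ncard ≤
            κ * H ^ (ρ * N + (m - ρ) * (m - 1)) := by
  have := Pool.Agent.Y787.uncountable_complex
  have hH := Pool.Agent.Y787.AS.hypQ_complex
  refine ⟨?_, ?_⟩
  · intro τ r ρ hρ F W _ hW φ
    obtain ⟨P, h1, h2⟩ := Pool.Agent.H53.AS.fam_dim' (k := ℚ) (Cc := ℂ)
      hH Pool.Agent.Y787.AS.wts_pt W hW hρ F φ
    refine ⟨P, h1, ?_⟩
    rintro y ⟨t, h3, h4⟩
    exact h2 y t h3 h4
  · intro N l halg hli
    have hmem : ∀ j, l j ∈ Pool.Agent.Y787.AS.LtQ {z : ℂ | IsAlgebraic ℚ (Complex.exp z)} :=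
      fun j => Submodule.subset_span (Or.inr (halg j))
    refine ⟨?_, ?_⟩
    · intro τ r ρ hρ F
      obtain ⟨κ, h1⟩ := Pool.Agent.H53.AS.count_fam (k := ℚ) (Cc := ℂ)
        hH Pool.Agent.Y787.AS.wts_pt hρ l hmem hli F
      refine ⟨κ, fun H hH' => ?_⟩
      refine le_trans (le_of_eq ?_) (h1 H hH')
      congr 1
    · intro r F ρ hmax hex
      exact Pool.Agent.H53.AS.growth hH l hmem hli F hmax hex

end Pool.Agent.Results.MP_60829e_nt.RationalTranslates
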