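import Pool.Agent.Y916.Al.WinP

/-!
# Logarithms of the algebraic numbers of short windows, over arbitrary constants

For all `q`, `r`, `d`, `δ`, `m`, `A` there is a number `E` with the following property. Let `ξ` be an algebraic number of
degree at most `m` whose minimal polynomial has coefficients at most `|ξ|^A`, and let `(H + 2)^E ≤ |ξ|`. For **all** complex
numbers `w_1, …, w_q` there is a set `S` of **at most `q + 2`** numbers such that the following holds: let `β_1, …, β_r` be
**any** different nonzero algebraic numbers outside `S` of degree at most `d` whose polynomials have coefficients at most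
`H`, let `x_1, …, x_r` be **any** logarithms of `ξ + β_1, …, ξ + β_r`, and let `K` be **any** number field of degree at most
`d`. Then every relation of degree at most `δ` between `x_1, …, x_r`, with coefficients which are polynomials over `K` in
`w_1, …, w_q`, is trivial: it is zero after the substitution of the `w_j`. There is no bound for the heights of the
coefficients, and `E` does not depend on the numbers `w_j`.

The `w_j` may be any other logarithms of algebraic numbers, for example: if `w_1, …, w_q` are algebraically independent,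
then `w_1, …, w_q, x_1, …, x_r` satisfy no nonzero relation of degree at most `δ` over a number field of degree at
most `d`. The relations need not be homogeneous, and they are of arbitrary degree: Baker's theorem is the case `δ = 1`
(without `w`).
-/

set_option autoImplicit false

namespace Pool.Agent.Results.MP_60829e_nt.WindowsOverConstants

/-- For all `q`, `r`, `d`, `δ`, `m`, `A` there is `E` such that for all `H` and all complex numbers `ξ` with
`(H + 2)^E ≤ |ξ|`, which are roots of a nonzero integral polynomial of degree at most `m` with coefficients at most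
`|ξ|^A`, and for all complex `w_1, …, w_q` there is a set `S` of at most `q + 2` numbers such that for all different nonzero
numbers `β_1, …, β_r` outside `S`, which are roots of nonzero integral polynomials of degree at most `d` with coefficients
at most `H`, all `x_i` with `exp (x_i) = ξ + β_i`, and all number fields `K` of degree at most `d`, every polynomial `P` of
degree at most `δ` over `K` which vanishes at `(w, x)` is zero after the substitution of `w`. -/
theorem result (q r d δ m A : ℕ) : ∃ E : ℕ, ∀ (H : ℕ) (ξ : ℂ), ((H : ℝ) + 2) ^ E ≤ ‖ξ‖ →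
    (∃ p : Polynomial ℤ, p ≠ 0 ∧ p.natDegree ≤ m ∧ (∀ j, |(p.coeff j : ℝ)| ≤ ‖ξ‖ ^ A) ∧
      Polynomial.aeval ξ p = 0) →
    ∀ w : Fin q → ℂ, ∃ S : Finset ℂ, S.card ≤ q + 2 ∧
      ∀ β : Fin r → ℂ, Function.Injective β → (∀ i, β i ∉ S ∧ β i ≠ 0) →
      (∀ i, ∃ p : Polynomial ℤ, p ≠ 0 ∧ p.natDegree ≤ d ∧ (∀ j, |p.coeff j| ≤ (H : ℤ)) ∧
        Polynomial.aeval (β i) p = 0) →
      ∀ x : Fin r → ℂ, (∀ i, Complex.exp (x i) = ξ + β i) →
      ∀ K : IntermediateField ℚ ℂ, FiniteDimensional ℚ K → Module.finrank ℚ K ≤ d →
      ∀ P : MvPolynomial (Fin q ⊕ Fin r) K, P.totalDegree ≤ δ →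
        MvPolynomial.aeval (Sum.elim w x) P = 0 →
        MvPolynomial.aeval (Sum.elim (fun j => MvPolynomial.C (w j)) MvPolynomial.X) P
          = (0 : MvPolynomial (Fin r) ℂ) := by
  classical
  obtain ⟨E, hE1, hE⟩ := Pool.Agent.Y916.Al.windowP r d δ (q + 2) 1 1 m A
  refine ⟨E, fun H ξ hξ hHt w => ?_⟩
  have hξ0 : ξ ≠ 0 := by
    rw [← norm_pos_iff]
    have hH : (0 : ℝ) < (H : ℝ) + 2 := by linarith [(Nat.cast_nonneg H : (0 : ℝ) ≤ H)]
    exact lt_of_lt_of_le (by positivity) hξ
  set v : Fin q ⊕ Fin 2 → ℂ := Sum.elim w ![Complex.log ξ, 2 * Real.pi * Complex.I] with hv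
  obtain ⟨S, hS, h⟩ := hE H ξ hξ hHt (Fin q ⊕ Fin 2) v Finset.univ
    (by rw [Finset.card_univ, Fintype.card_sum, Fintype.card_fin, Fintype.card_fin]) (Pool.Agent.Y916.Om.Dom.univ v)
  refine ⟨S, hS, ?_⟩
  intro β hinj hβ hβa x hx K hK hKd P hPd hP0
  have hst : ∀ i, ∃ a : K, a ≠ 0 ∧ x i - a * Complex.log (1 + β i / ξ) ∈
      Submodule.span K (insert 1 (Set.range v)) := by
    intro i
    refine ⟨1, one_ne_zero, ?_⟩
    have h0 : ξ * (1 + β i / ξ) = ξ + β i := by field_simp
    have h1 : (1 : ℂ) + β i / ξ ≠ 0 := by
      intro h1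
      rw [h1, mul_zero, ← hx i] at h0
      exact Complex.exp_ne_zero _ h0.symm
    have h2 : Complex.exp (x i) = Complex.exp (Complex.log ξ + Complex.log (1 + β i / ξ)) := by
      rw [Complex.exp_add, Complex.exp_log hξ0, Complex.exp_log h1, hx i, h0]
    obtain ⟨κ, hκ⟩ := Complex.exp_eq_exp_iff_exists_int.1 h2
    have h3 : x i - ((1 : K) : ℂ) * Complex.log (1 + β i / ξ) = v (Sum.inr 0) + (κ : K) • v (Sum.inr 1) := by
      have h5 : ((1 : K) : ℂ) = 1 := rfl
      have h6 : (κ : K) • v (Sum.inr 1) = (κ : ℂ) * v (Sum.inr 1) := by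
        rw [Algebra.smul_def]
        simp
      rw [h5, one_mul, hκ, h6, hv]
      simp only [Sum.elim_inr, Matrix.cons_val_zero, Matrix.cons_val_one]
      ring
    rw [h3]
    exact Submodule.add_mem _ (Submodule.subset_span (Set.mem_insert_of_mem _ ⟨_, rfl⟩))
      (Submodule.smul_mem _ _ (Submodule.subset_span (Set.mem_insert_of_mem _ ⟨_, rfl⟩)))
  have key := h β hinj (fun i => ⟨(hβ i).1, (hβ i).2, hβa i⟩) K hK hKd x hst
    (MvPolynomial.rename (Sum.map Sum.inl id) P) ((MvPolynomial.totalDegree_rename_le _ _).trans hPd) (by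
      rw [MvPolynomial.aeval_rename, ← hP0]
      congr 2
      funext i
      rcases i with i | i <;> rfl)
  rw [MvPolynomial.aeval_rename] at key
  rw [← key]
  congr 2
  funext i
  rcases i with i | i <;> rfl

end Pool.Agent.Results.MP_60829e_nt.WindowsOverConstants
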